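import Pool.Agent.Work.MP_2482e4_mp.Harm

open Pool.Agent.Work.MP_2482e4_mp

namespace Pool.Agent.Work.MP_2482e4_mp.Old.Harmonic

/-- For the Petz metric of `f (t) = 2 κ (t - 1) t ^ κ / (t ^ (2 κ) - 1)` (`κ = 1`: the function
`2 t / (1 + t)` of the RLD metric, `κ = 1 / 2`: the function `√t`), with `S = ρ ^ (κ / 2)` and `𝒜`
the `e`-representations of `V`, the pair `(ρ, V)` is the point and tangent space of an
`e`-autoparallel submanifold if and only if `ℬ = {B | S B S⁻¹ + S⁻¹ B S ∈ 𝒜}` is a Lie triple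
system and `S [B, C] S⁻¹ - S⁻¹ [B, C] S ∈ 𝒜` for all `B, C ∈ ℬ`. -/
theorem result {E : Type} [NormedAddCommGroup E] [NormedSpace ℝ E] {n : Type} [Fintype n]
    [DecidableEq n] (ι : E →ₗ[ℝ] Matrix n n ℂ) (hι : IsHermModel ι) (κ : ℝ) (hκ : 0 < κ)
    (g : E → E →L[ℝ] E →L[ℝ] ℝ) (hg : IsPetz ι (fHarm κ) g) (ρ : E) (hρ : ρ ∈ states ι)
    (V : Submodule ℝ E) (hV : ∀ X ∈ V, (ι X).trace = 0) (S : Matrix n n ℂ)
    (hS : S = cfc (fun t : ℝ => t ^ (κ / 2)) (ι ρ)) :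
    Admissible ι g ρ V ↔ IsLieTriple (twist S (eRep ι g ρ V)) ∧
      ∀ B ∈ twist S (eRep ι g ρ V), ∀ C ∈ twist S (eRep ι g ρ V),
        S * ⁅B, C⁆ * S⁻¹ - S⁻¹ * ⁅B, C⁆ * S ∈ eRep ι g ρ V :=
  harm_iff hι hκ hg hρ hV hS

end Pool.Agent.Work.MP_2482e4_mp.Old.Harmonic
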